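import Pool.Agent.helper81.DH.SpecZ

/-!
# MP_5823cb_al, project d2: row ZP6, splitting a placed sequence into six (helper77)
-/

set_option autoImplicit false

open Filter Topology
open scoped commutatorElement
open Pool.Agent.helper64.D2

namespace M5Z

theorem ZP6_one (hPLC : PLC_stmt) (k : ℕ → ℕ) (F : ℕ → DD) (hk : StrictMono k) (l m i : ℕ) (hl : l < 6) (hm : m < 6) :
    place (fun i => k (6 * i + l)) (fun i => F (6 * i + l)) (k (6 * i + m)) = if l = m then F (6 * i + m) else 1 := by
  have hs : StrictMono (fun i => k (6 * i + l)) := fun a b hab => hk (by omega)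
  obtain ⟨h1, h2⟩ := hPLC (fun i => k (6 * i + l)) (fun i => F (6 * i + l)) hs
  by_cases h : l = m
  · subst h
    rw [if_pos rfl]
    exact h1 i
  · rw [if_neg h]
    refine h2 _ fun i' he => h ?_
    have := hk.injective he
    omega

theorem ZP6 (hPLC : PLC_stmt) : ZP6_stmt := by
  intro k F hk
  have e0 : place (fun i => k (6 * i)) (fun i => F (6 * i)) = place (fun i => k (6 * i + 0)) (fun i => F (6 * i + 0)) := rfl
  rw [e0]
  funext m
  simp only [Pi.mul_apply]
  by_cases h : ∃ j, k j = m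
  · obtain ⟨j, rfl⟩ := h
    obtain ⟨i, l, hl, rfl⟩ : ∃ i l, l < 6 ∧ j = 6 * i + l := ⟨j / 6, j % 6, Nat.mod_lt _ (by norm_num), (Nat.div_add_mod j 6).symm⟩
    rw [(hPLC k F hk).1, ZP6_one hPLC k F hk 0 l i (by norm_num) hl, ZP6_one hPLC k F hk 1 l i (by norm_num) hl,
      ZP6_one hPLC k F hk 2 l i (by norm_num) hl, ZP6_one hPLC k F hk 3 l i (by norm_num) hl,
      ZP6_one hPLC k F hk 4 l i (by norm_num) hl, ZP6_one hPLC k F hk 5 l i (by norm_num) hl]
    interval_cases l <;> simp
  · have h0 : ∀ l, place (fun i => k (6 * i + l)) (fun i => F (6 * i + l)) m = 1 := by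
      intro l
      have hs : StrictMono (fun i => k (6 * i + l)) := fun a b hab => hk (by omega)
      exact (hPLC _ (fun i => F (6 * i + l)) hs).2 m fun i hi => h ⟨_, hi⟩
    rw [(hPLC k F hk).2 m fun i hi => h ⟨i, hi⟩, h0 0, h0 1, h0 2, h0 3, h0 4, h0 5]
    simp

end M5Z
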