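import Pool.Agent.helper18.DH.SpecM

/-!
# dh: CLI: closeness of inverses (helper77)
-/

set_option autoImplicit false

open Filter Topology MeasureTheory
open scoped commutatorElement

namespace Pool.Agent.helper90.DH

open Pool.Agent.helper64.D2

/-- a differentiable function with bounded derivative. -/
theorem CLI_lip (F : ℝ → ℝ) (C : ℝ) (hF : Differentiable ℝ F) (hb : ∀ x, |deriv F x| ≤ C) (x y : ℝ) : |F y - F x| ≤ C * |y - x| := by
  have h := Convex.norm_image_sub_le_of_norm_deriv_le (f := F) (C := C) (s := Set.univ) (x := x) (y := y)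
    (fun z _ => hF z) (fun z _ => by rw [Real.norm_eq_abs]; exact hb z) convex_univ (Set.mem_univ x) (Set.mem_univ y)
  rwa [Real.norm_eq_abs, Real.norm_eq_abs] at h

/-- the arithmetic of the second derivative. -/
theorem CLI_arith (p q u v a s0 s1 s2 M δ : ℝ) (ha : a ≤ 1 / 100) (hM : 0 ≤ M) (h0 : 0 ≤ s0) (h1 : 0 ≤ s1) (h2 : 0 ≤ s2) (ha0 : 0 ≤ a)
    (hp0 : 0 ≤ p) (hp : p ≤ 100 / 99) (hq0 : 0 ≤ q) (hq : q ≤ 100 / 99) (hδ : δ ≤ 100 / 99 * s0) (huv : |u - v| ≤ s2 + M * δ) (hv : |v| ≤ a)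
    (hpq : |p - q| ≤ 11 / 10 * s1 + 1 / 10 * s0) : |-(u * p ^ 3) - -(v * q ^ 3)| ≤ 2 * s2 + s1 + 2 * M * s0 + s0 := by
  have e1 : -(u * p ^ 3) - -(v * q ^ 3) = -((u - v) * p ^ 3 + v * ((p - q) * (p ^ 2 + p * q + q ^ 2))) := by ring
  rw [e1, abs_neg]
  have hp3 : p ^ 3 ≤ 11 / 10 := by
    calc p ^ 3 ≤ (100 / 99) ^ 3 := pow_le_pow_left₀ hp0 hp 3
      _ ≤ 11 / 10 := by norm_num
  have hMδ : M * δ ≤ 100 / 99 * (M * s0) := by
    calc M * δ ≤ M * (100 / 99 * s0) := mul_le_mul_of_nonneg_left hδ hM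
      _ = _ := by ring
  have hMs : 0 ≤ M * s0 := mul_nonneg hM h0
  have b1 : |(u - v) * p ^ 3| ≤ (s2 + 100 / 99 * (M * s0)) * (11 / 10) := by
    rw [abs_mul, abs_of_nonneg (pow_nonneg hp0 3)]
    exact mul_le_mul (huv.trans (by linarith)) hp3 (pow_nonneg hp0 3) (by positivity)
  have hsum0 : 0 ≤ p ^ 2 + p * q + q ^ 2 := by positivity
  have hsum : p ^ 2 + p * q + q ^ 2 ≤ 4 := by nlinarith
  have b2 : |v * ((p - q) * (p ^ 2 + p * q + q ^ 2))| ≤ 1 / 100 * ((11 / 10 * s1 + 1 / 10 * s0) * 4) := by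
    rw [abs_mul, abs_mul, abs_of_nonneg hsum0]
    exact mul_le_mul (hv.trans ha) (mul_le_mul hpq hsum hsum0 (by positivity)) (by positivity) (by norm_num)
  have b3 := abs_add_le ((u - v) * p ^ 3) (v * ((p - q) * (p ^ 2 + p * q + q ^ 2)))
  have h3 : (100 : ℝ) / 99 * (11 / 10) ≤ 2 := by norm_num
  nlinarith

theorem CLI (hSZC : SZC_stmt) (hNCA : NCA_stmt) : CLI_stmt := by
  intro f f' a M s0 s1 s2 ha hM hf hf' hL hC x
  obtain ⟨-, -, -, hd1, hd2, -, -, -, -⟩ := hNCA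
  have hb : ∀ z, 99 / 100 ≤ deriv (ev f) z := by
    intro z
    have h := (abs_le.1 (hSZC.2.1 f a hf z).1).1
    linarith
  have hb' : ∀ z, 99 / 100 ≤ deriv (ev f') z := by
    intro z
    have h := (abs_le.1 (hSZC.2.1 f' a hf' z).1).1
    linarith
  have ha0 : 0 ≤ a := (abs_nonneg _).trans (hf 0)
  have hs0 : 0 ≤ s0 := (abs_nonneg _).trans (hC 0).1
  have hs1 : 0 ≤ s1 := (abs_nonneg _).trans (hC 0).2.1
  have hs2 : 0 ≤ s2 := (abs_nonneg _).trans (hC 0).2.2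
  have hinv : ∀ t : ℝ, 99 / 100 ≤ t → 0 ≤ 1 / t ∧ 1 / t ≤ 100 / 99 := by
    intro t ht
    have ht0 : 0 < t := by linarith
    refine ⟨by positivity, ?_⟩
    rw [div_le_div_iff₀ ht0 (by norm_num)]
    linarith
  obtain ⟨y, hy⟩ : ∃ y, y = ev f⁻¹ x := ⟨_, rfl⟩
  obtain ⟨y', hy'⟩ : ∃ y', y' = ev f'⁻¹ x := ⟨_, rfl⟩
  have hfy' : ev f' y' = x := by rw [hy']; exact ev_inv' f' x
  -- distance of the points
  have hδ : |y' - y| ≤ 100 / 99 * s0 := by
    have h1 : y' = ev f⁻¹ (ev f y') := (ev_inv f y').symm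
    have h2 : |ev f⁻¹ (ev f y') - ev f⁻¹ x| ≤ 100 / 99 * |ev f y' - x| := by
      refine CLI_lip (ev f⁻¹) (100 / 99) ((ev_contDiff f⁻¹).differentiable (by norm_num)) ?_ x (ev f y')
      intro z
      rw [hd1 f z]
      have h3 := hinv _ (hb (ev f⁻¹ z))
      rw [abs_of_nonneg h3.1]
      exact h3.2
    rw [← h1, ← hy] at h2
    have h4 : |ev f y' - x| ≤ s0 := by
      have h5 := (hC y').1
      rw [hfy', abs_sub_comm] at h5
      exact h5
    calc |y' - y| ≤ 100 / 99 * |ev f y' - x| := h2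
      _ ≤ 100 / 99 * s0 := mul_le_mul_of_nonneg_left h4 (by norm_num)
  have hDf : |deriv (ev f) y' - deriv (ev f) y| ≤ a * |y' - y| :=
    CLI_lip (deriv (ev f)) a (ev_contDiff f).differentiable_deriv_two hf y y'
  have hDD : |deriv (ev f') y' - deriv (ev f) y| ≤ s1 + a * |y' - y| := by
    have h1 := abs_add_le (deriv (ev f') y' - deriv (ev f) y') (deriv (ev f) y' - deriv (ev f) y)
    rw [sub_add_sub_cancel] at h1
    have h2 := (hC y').2.1
    linarith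
  have haδ : a * |y' - y| ≤ 1 / 50 * s0 := by
    calc a * |y' - y| ≤ 1 / 100 * (100 / 99 * s0) := mul_le_mul ha hδ (abs_nonneg _) (by norm_num)
      _ ≤ 1 / 50 * s0 := by linarith
  obtain ⟨D, hD⟩ : ∃ D, D = deriv (ev f) y := ⟨_, rfl⟩
  obtain ⟨D', hD'⟩ : ∃ D', D' = deriv (ev f') y' := ⟨_, rfl⟩
  have hDb : 99 / 100 ≤ D := by rw [hD]; exact hb y
  have hDb' : 99 / 100 ≤ D' := by rw [hD']; exact hb' y'
  rw [← hD, ← hD'] at hDD
  have hp := hinv D' hDb'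
  have hq := hinv D hDb
  have hD0 : 0 < D := by linarith
  have hD0' : 0 < D' := by linarith
  have hpq : |1 / D' - 1 / D| ≤ 11 / 10 * s1 + 1 / 10 * s0 := by
    have e1 : 1 / D' - 1 / D = -((D' - D) * (1 / D' * (1 / D))) := by
      field_simp
      ring
    rw [e1, abs_neg, abs_mul, abs_of_nonneg (mul_nonneg hp.1 hq.1)]
    have h1 : 1 / D' * (1 / D) ≤ 11 / 10 := by
      calc 1 / D' * (1 / D) ≤ 100 / 99 * (100 / 99) := mul_le_mul hp.2 hq.2 hq.1 (by norm_num)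
        _ ≤ 11 / 10 := by norm_num
    calc |D' - D| * (1 / D' * (1 / D)) ≤ (s1 + 1 / 50 * s0) * (11 / 10) :=
          mul_le_mul (by linarith) h1 (mul_nonneg hp.1 hq.1) (by positivity)
      _ ≤ 11 / 10 * s1 + 1 / 10 * s0 := by linarith
  refine ⟨?_, ?_, ?_⟩
  · rw [← hy, ← hy']
    linarith
  · rw [hd1 f' x, hd1 f x, ← hy, ← hy', ← hD, ← hD']
    linarith
  · rw [hd2 f' x, hd2 f x, ← hy, ← hy', ← hD, ← hD']
    have e1 : d2 (ev f') y' / D' ^ 3 = d2 (ev f') y' * (1 / D') ^ 3 := by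
      rw [one_div, inv_pow, div_eq_mul_inv]
    have e2 : d2 (ev f) y / D ^ 3 = d2 (ev f) y * (1 / D) ^ 3 := by
      rw [one_div, inv_pow, div_eq_mul_inv]
    rw [e1, e2]
    have huv : |d2 (ev f') y' - d2 (ev f) y| ≤ s2 + M * |y' - y| := by
      have h1 := abs_add_le (d2 (ev f') y' - d2 (ev f) y') (d2 (ev f) y' - d2 (ev f) y)
      rw [sub_add_sub_cancel] at h1
      have h2 := (hC y').2.2
      have h3 := hL y' y
      linarith
    exact CLI_arith (1 / D') (1 / D) (d2 (ev f') y') (d2 (ev f) y) a s0 s1 s2 M |y' - y| ha hM hs0 hs1 hs2 ha0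
      hp.1 hp.2 hq.1 hq.2 hδ huv (hf y) hpq

end Pool.Agent.helper90.DH
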